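import Mathlib

/-!
Crump–Mode–Jagers trees: definitions and deterministic lemmas.
-/

open Set
open scoped ENNReal

namespace Q287.CMJ

/-- Birth times. An individual is a finite word over `ℕ`; the empty word is the root and
`i :: u` is the `(i+1)`-st child of `u`. `X u j` is the waiting time of `u` for its `(j+1)`-st
child (after the previous one). So `B(root) = 0`, `B(i :: u) = B(u) + ∑_{j ≤ i} X u j`. -/
noncomputable def birth (X : List ℕ → ℕ → ℝ≥0∞) : List ℕ → ℝ≥0∞
  | [] => 0
  | i :: u => birth X u + ∑ j ∈ Finset.range (i + 1), X u j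

/-- The explosion time: the infimum of all `t` such that infinitely many individuals are born
up to time `t` (`∞` if there is no finite such `t`). -/
noncomputable def explosionTime (X : List ℕ → ℕ → ℝ≥0∞) : ℝ≥0∞ :=
  sInf {t : ℝ≥0∞ | {x : List ℕ | birth X x ≤ t}.Infinite}

/-- The set of individuals born before the explosion time. -/
def preTree (X : List ℕ → ℕ → ℝ≥0∞) : Set (List ℕ) :=
  {x | birth X x < explosionTime X}

theorem birth_parent_le (X : List ℕ → ℕ → ℝ≥0∞) (i : ℕ) (u : List ℕ) :
    birth X u ≤ birth X (i :: u) := by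
  simp [birth]

theorem birth_mono_child (X : List ℕ → ℕ → ℝ≥0∞) {i j : ℕ} (h : i ≤ j) (u : List ℕ) :
    birth X (i :: u) ≤ birth X (j :: u) := by
  simp only [birth]
  gcongr

/-- If the set of individuals born before the explosion were finite then only finitely many would
be born until slightly after the explosion time. -/
theorem preTree_infinite (X : List ℕ → ℕ → ℝ≥0∞) (hpos : ∀ u j, 0 < X u j)
    (hfin : explosionTime X < ∞) : (preTree X).Infinite := by
  intro hF
  set τ := explosionTime X with hτ
  -- the individuals born up to time τ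
  set S : Set (List ℕ) := {x | birth X x ≤ τ} with hS
  have hlt : ∀ i u, birth X (i :: u) ≤ τ → birth X u < τ := by
    intro i u h
    have h1 : birth X u < birth X (i :: u) := by
      simp only [birth]
      have hu : birth X u ≠ ∞ :=
        ((birth_parent_le X i u).trans h).trans_lt hfin |>.ne
      have h2 : 0 < ∑ j ∈ Finset.range (i + 1), X u j :=
        (hpos u 0).trans_le (Finset.single_le_sum (f := fun j => X u j)
          (fun j _ => zero_le) (by simp : 0 ∈ Finset.range (i + 1)))
      exact ENNReal.lt_add_right hu h2.ne'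
    exact h1.trans_le h
  have hinj : ∀ i j u, i < j → birth X (j :: u) ≤ τ → birth X (i :: u) < τ := by
    intro i j u hij h
    have h1 : birth X (i :: u) < birth X (j :: u) := by
      have hi : birth X (i :: u) ≠ ∞ :=
        ((birth_mono_child X hij.le u).trans h).trans_lt hfin |>.ne
      have h2 : birth X (i :: u) + X u (i + 1) ≤ birth X (j :: u) := by
        simp only [birth]
        rw [add_assoc]
        gcongr
        rw [← Finset.sum_range_succ]
        exact Finset.sum_le_sum_of_subset (Finset.range_subset_range.2 (by omega))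
      exact (ENNReal.lt_add_right hi (hpos u _).ne').trans_le h2
    exact h1.trans_le h
  have hSfin : S.Finite := by
    -- S ⊆ {[]} ∪ preTree ∪ {children of u in preTree with birth time τ}
    have hsub : S ⊆ {[]} ∪ (preTree X ∪ ⋃ u ∈ preTree X, {x | ∃ i, x = i :: u ∧ birth X x = τ}) := by
      intro x hx
      cases x with
      | nil => simp
      | cons i u =>
        right
        rcases lt_or_eq_of_le (show birth X (i :: u) ≤ τ from hx) with h | h
        · left; exact h
        · right
          simp only [mem_iUnion]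
          exact ⟨u, hlt i u h.le, i, rfl, h⟩
    refine Finite.subset ?_ hsub
    refine (finite_singleton _).union (hF.union (hF.biUnion fun u _ => ?_))
    refine Set.Subsingleton.finite ?_
    rintro x ⟨i, rfl, hi⟩ y ⟨j, rfl, hj⟩
    rcases lt_trichotomy i j with h | h | h
    · exact absurd (hinj i j u h hj.le) (by rw [hi]; exact lt_irrefl _)
    · rw [h]
    · exact absurd (hinj j i u h hi.le) (by rw [hj]; exact lt_irrefl _)
  -- a uniform gap after τ
  have hgap : ∀ u : List ℕ, ∃ t, τ < t ∧ ∀ i, birth X (i :: u) ≤ τ ∨ t ≤ birth X (i :: u) := by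
    intro u
    have hex : ∃ i, τ < birth X (i :: u) := by
      by_contra hcon
      push Not at hcon
      have : (Set.range fun i : ℕ => i :: u) ⊆ S := by
        rintro x ⟨i, rfl⟩; exact hcon i
      have h3 := hSfin.subset this
      exact (Set.infinite_range_of_injective (fun a b h => by simpa using h)) h3
    classical
    refine ⟨birth X (Nat.find hex :: u), Nat.find_spec hex, fun i => ?_⟩
    rcases lt_or_ge i (Nat.find hex) with h | h
    · left; exact not_lt.1 (Nat.find_min hex h)
    · right; exact birth_mono_child X h u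
  choose g hg1 hg2 using hgap
  -- take the minimum over S
  obtain ⟨t, ht1, ht2⟩ : ∃ t, τ < t ∧ ∀ u ∈ S, t ≤ g u := by
    have hgen : ∀ s : Set (List ℕ), s.Finite → ∃ t, τ < t ∧ ∀ u ∈ s, t ≤ g u := by
      intro s hs
      induction s, hs using Set.Finite.induction_on with
      | empty => exact ⟨∞, hfin, by simp⟩
      | insert _ _ ih =>
        obtain ⟨t, h1, h2⟩ := ih
        rename_i a s _ _
        refine ⟨min t (g a), lt_min h1 (hg1 a), ?_⟩
        intro u hu
        rcases hu with rfl | hu
        · exact min_le_right _ _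
        · exact (min_le_left _ _).trans (h2 u hu)
    exact hgen S hSfin
  have key : ∀ s, s < t → {x : List ℕ | birth X x ≤ s} ⊆ S := by
    intro s hs x hx
    induction x with
    | nil => simp [hS, birth]
    | cons i u ih =>
      have hu : u ∈ S := ih ((birth_parent_le X i u).trans hx)
      rcases hg2 u i with h | h
      · exact h
      · exact absurd ((ht2 u hu).trans (h.trans hx)) (not_le.2 hs)
  have hle : t ≤ τ := by
    rw [hτ, explosionTime]
    refine le_sInf fun s hs => ?_
    by_contra hcon
    exact hs (hSfin.subset (key s (not_le.1 hcon)))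
  exact absurd hle (not_le.2 ht1)

/-- If the waiting times of `u` do not sum up then `u` has only finitely many children before the
explosion. -/
theorem finite_children (X : List ℕ → ℕ → ℝ≥0∞) (u : List ℕ)
    (hfin : explosionTime X < ∞) (hsum : ∑' j, X u j = ∞) :
    ¬ {i : ℕ | (i :: u) ∈ preTree X}.Infinite := by
  intro hinf
  have h1 : ∀ n, ∑ j ∈ Finset.range n, X u j ≤ explosionTime X := by
    intro n
    obtain ⟨i, hi, hni⟩ := hinf.exists_gt n
    have h2 : birth X (i :: u) < explosionTime X := hi
    have h3 : ∑ j ∈ Finset.range n, X u j ≤ birth X (i :: u) := by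
      simp only [birth]
      refine le_trans ?_ le_add_self
      exact Finset.sum_le_sum_of_subset (Finset.range_subset_range.2 (by omega))
    exact h3.trans h2.le
  have h4 : ∑' j, X u j ≤ explosionTime X := by
    rw [ENNReal.tsum_eq_iSup_nat]
    exact iSup_le h1
  rw [hsum] at h4
  exact absurd (lt_of_le_of_lt h4 hfin) (lt_irrefl _)

/-- The deterministic explosion criterion. -/
theorem explosion_of_path (X : List ℕ → ℕ → ℝ≥0∞) (n : ℕ → ℕ) (hn : ∀ k, 0 < n k)
    (hXfin : ∀ u j, X u j < ∞)
    (D : ℕ → Set (List ℕ)) (hD0 : [] ∈ D 0)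
    (hDs : ∀ k v i, v ∈ D k → i < n k → i :: v ∈ D (k + 1))
    (K : ℕ)
    (hK : ∀ k, K ≤ k → ∀ v ∈ D k, ∃ i < n k, ∀ j < n (k + 1),
      X (i :: v) j ≤ (1 / 2 : ℝ≥0∞) ^ (k + 1 + j)) :
    explosionTime X < ∞ := by
  classical
  have hDne : ∀ k, ∃ v, v ∈ D k := by
    intro k
    induction k with
    | zero => exact ⟨_, hD0⟩
    | succ k ih =>
      obtain ⟨v, hv⟩ := ih
      exact ⟨0 :: v, hDs k v 0 hv (hn k)⟩
  have hbfin : ∀ v, birth X v < ∞ := by
    intro v
    induction v with
    | nil => simp [birth]
    | cons i u ih =>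
      simp only [birth]
      exact ENNReal.add_lt_top.2 ⟨ih, ENNReal.sum_lt_top.2 fun j _ => hXfin u j⟩
  -- choice of the next child
  have hnext : ∀ k, ∀ v : List ℕ, ∃ i, K ≤ k → v ∈ D k → (i < n k ∧ ∀ j < n (k + 1),
      X (i :: v) j ≤ (1 / 2 : ℝ≥0∞) ^ (k + 1 + j)) := by
    intro k v
    by_cases h : K ≤ k ∧ v ∈ D k
    · obtain ⟨i, hi⟩ := hK k h.1 v h.2
      exact ⟨i, fun _ _ => hi⟩
    · exact ⟨0, fun h1 h2 => absurd ⟨h1, h2⟩ h⟩
  choose c hc using hnext
  obtain ⟨v0, hv0⟩ := hDne K
  -- the path
  let w : ℕ → List ℕ := fun m => Nat.rec v0 (fun m v => c (K + m) v :: v) m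
  have hw0 : w 0 = v0 := rfl
  have hws : ∀ m, w (m + 1) = c (K + m) (w m) :: w m := fun m => rfl
  have hwD : ∀ m, w m ∈ D (K + m) := by
    intro m
    induction m with
    | zero => exact hv0
    | succ m ih =>
      rw [hws]
      exact hDs (K + m) _ _ ih (hc (K + m) (w m) (by omega) ih).1
  have hwlen : ∀ m, (w m).length = v0.length + m := by
    intro m
    induction m with
    | zero => rfl
    | succ m ih => rw [hws]; simp [ih]; omega
  have hwinj : Function.Injective w := by
    intro a b h
    have := congrArg List.length h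
    rw [hwlen, hwlen] at this
    omega
  have hstep : ∀ m, birth X (w (m + 2)) ≤ birth X (w (m + 1)) + (1 / 2 : ℝ≥0∞) ^ m * 1 := by
    intro m
    rw [hws (m + 1)]
    show birth X (w (m + 1)) + ∑ j ∈ Finset.range (c (K + (m + 1)) (w (m + 1)) + 1), X (w (m + 1)) j ≤ _
    gcongr
    have h1 := (hc (K + m) (w m) (by omega) (hwD m)).2
    have h2 := (hc (K + (m + 1)) (w (m + 1)) (by omega) (hwD (m + 1))).1
    calc ∑ j ∈ Finset.range (c (K + (m + 1)) (w (m + 1)) + 1), X (w (m + 1)) j
        ≤ ∑ j ∈ Finset.range (c (K + (m + 1)) (w (m + 1)) + 1), (1 / 2 : ℝ≥0∞) ^ (K + m + 1 + j) := by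
          refine Finset.sum_le_sum fun j hj => ?_
          rw [Finset.mem_range] at hj
          rw [hws m]
          refine h1 j ?_
          have : K + (m + 1) = K + m + 1 := by omega
          rw [this] at h2 hj
          omega
      _ = (1 / 2 : ℝ≥0∞) ^ (K + m) * ∑ j ∈ Finset.range (c (K + (m + 1)) (w (m + 1)) + 1), (1 / 2 : ℝ≥0∞) ^ (1 + j) := by
          rw [Finset.mul_sum]
          refine Finset.sum_congr rfl fun j _ => ?_
          rw [← pow_add]
          congr 1
          omega
      _ ≤ (1 / 2 : ℝ≥0∞) ^ m * 1 := by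
          gcongr ?_ * ?_
          · exact pow_le_pow_of_le_one (by simp) (by simp) (by omega)
          · have h5 : ∑' j : ℕ, (1 / 2 : ℝ≥0∞) ^ (1 + j) = 1 := by
              have h6 := ENNReal.tsum_geometric (1 / 2 : ℝ≥0∞)
              have h7 : (1 - (1/2 : ℝ≥0∞))⁻¹ = 2 := by
                rw [one_div, ENNReal.one_sub_inv_two, inv_inv]
              rw [h7] at h6
              simp only [pow_add, pow_one]
              rw [ENNReal.tsum_mul_left, h6, one_div]
              exact ENNReal.inv_mul_cancel (by norm_num) (by norm_num)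
            exact (ENNReal.sum_le_tsum _).trans h5.le
  have hbd : ∀ m, birth X (w (m + 1)) ≤ birth X (w 1) + ∑ l ∈ Finset.range m, (1 / 2 : ℝ≥0∞) ^ l := by
    intro m
    induction m with
    | zero => simp
    | succ m ih =>
      rw [Finset.sum_range_succ, ← add_assoc]
      refine (hstep m).trans ?_
      rw [mul_one]
      gcongr
  have hbd2 : ∀ m, birth X (w (m + 1)) ≤ birth X (w 1) + 2 := by
    intro m
    refine (hbd m).trans ?_
    gcongr
    have h6 := ENNReal.tsum_geometric (1 / 2 : ℝ≥0∞)
    have h7 : (1 - (1/2 : ℝ≥0∞))⁻¹ = 2 := by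
      rw [one_div, ENNReal.one_sub_inv_two, inv_inv]
    rw [h7] at h6
    exact (ENNReal.sum_le_tsum _).trans h6.le
  have hinf : {x : List ℕ | birth X x ≤ birth X (w 1) + 2}.Infinite := by
    have h1 : Set.range (fun m => w (m + 1)) ⊆ {x : List ℕ | birth X x ≤ birth X (w 1) + 2} := by
      rintro x ⟨m, rfl⟩; exact hbd2 m
    refine Set.Infinite.mono h1 (Set.infinite_range_of_injective ?_)
    intro a b h
    have := hwinj (a₁ := a + 1) (a₂ := b + 1) h
    omega
  calc explosionTime X ≤ birth X (w 1) + 2 := sInf_le hinf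
    _ < ∞ := ENNReal.add_lt_top.2 ⟨hbfin _, by norm_num⟩

end Q287.CMJ
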