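import Pool.Agent.Q287.CMJ.Prob

/-!
Crump–Mode–Jagers trees: the law of the waiting times.
-/

open Set MeasureTheory ProbabilityTheory
open scoped ENNReal

namespace Q287.CMJ

/-- Mixture of a probability measure with the point mass at one. -/
noncomputable def mix (b : Measure ℝ≥0∞) : Measure ℝ≥0∞ :=
  (1 / 2 : ℝ≥0∞) • b + (1 / 2 : ℝ≥0∞) • Measure.dirac 1

instance (b : Measure ℝ≥0∞) [IsProbabilityMeasure b] : IsProbabilityMeasure (mix b) := by
  constructor
  simp only [mix, Measure.coe_add, Measure.coe_smul, Pi.add_apply, Pi.smul_apply, smul_eq_mul,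
    measure_univ, mul_one]
  rw [one_div]; exact ENNReal.inv_two_add_inv_two

open Classical in
/-- The laws of the waiting times. -/
noncomputable def nu (n : ℕ → ℕ) (j : ℕ) : Measure ℝ≥0∞ :=
  if j ∈ Set.range n then mix (beta j) else beta j

instance (n : ℕ → ℕ) (j : ℕ) : IsProbabilityMeasure (nu n j) := by
  unfold nu; split_ifs <;> infer_instance

theorem nu_ae (n : ℕ → ℕ) (j : ℕ) : ∀ᵐ x ∂nu n j, 0 < x ∧ x ≤ 1 := by
  unfold nu
  split_ifs
  · unfold mix
    rw [ae_add_measure_iff]
    refine ⟨Measure.ae_smul_measure (beta_ae j) _, Measure.ae_smul_measure ?_ _⟩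
    rw [ae_dirac_iff]
    · simp
    · exact (measurableSet_lt measurable_const measurable_id).inter
        (measurableSet_le measurable_id measurable_const)
  · exact beta_ae j

open Classical in
theorem nu_Iic (n : ℕ → ℕ) (j k : ℕ) :
    (if j < k then (1 / 2 : ℝ≥0∞) ^ k else 1) * (if j ∈ Set.range n then (1 / 2 : ℝ≥0∞) else 1)
      ≤ nu n j (Iic ((1 / 2 : ℝ≥0∞) ^ (k + j))) := by
  have h1 : (if j < k then (1 / 2 : ℝ≥0∞) ^ k else 1) ≤ beta j (Iic ((1 / 2 : ℝ≥0∞) ^ (k + j))) := by
    split_ifs with h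
    · exact beta_Iic j k
    · exact beta_Iic' j k (by omega)
  generalize (if j < k then (1 / 2 : ℝ≥0∞) ^ k else 1) = a at h1
  unfold nu
  by_cases h3 : j ∈ Set.range n
  · rw [if_pos h3, if_pos h3]
    simp only [mix, Measure.coe_add, Measure.coe_smul, Pi.add_apply, Pi.smul_apply, smul_eq_mul]
    rw [mul_comm]
    refine le_add_right ?_
    gcongr
  · rw [if_neg h3, if_neg h3, mul_one]
    exact h1

theorem goodSet_prob (n : ℕ → ℕ) (hn : StrictMono n) (k : ℕ) :
    (1 / 2 : ℝ≥0∞) ^ (k * k + k) ≤ Measure.infinitePi (nu n) (goodSet k (n k)) := by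
  classical
  rw [goodSet_eq, Measure.infinitePi_pi _ (fun _ _ => measurableSet_Iic)]
  refine le_trans ?_ (Finset.prod_le_prod' fun j _ => nu_Iic n j k)
  rw [Finset.prod_mul_distrib, pow_add]
  gcongr ?_ * ?_
  · rw [Finset.prod_ite, Finset.prod_const, Finset.prod_const_one, mul_one, ← pow_mul]
    apply pow_le_pow_of_le_one (by simp) (by simp)
    gcongr
    calc (Finset.filter (fun x : ℕ => x < k) (Finset.range (n k))).card
        ≤ (Finset.range k).card := by
          apply Finset.card_le_card
          intro x hx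
          rw [Finset.mem_filter] at hx
          exact Finset.mem_range.2 hx.2
      _ = k := Finset.card_range k
  · rw [Finset.prod_ite, Finset.prod_const, Finset.prod_const_one, mul_one]
    apply pow_le_pow_of_le_one (by simp) (by simp)
    calc (Finset.filter (fun x : ℕ => x ∈ Set.range n) (Finset.range (n k))).card
        ≤ ((Finset.range k).image n).card := by
          apply Finset.card_le_card
          intro x hx
          rw [Finset.mem_filter, Finset.mem_range] at hx
          obtain ⟨h1, i, rfl⟩ := hx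
          exact Finset.mem_image_of_mem _ (Finset.mem_range.2 (hn.lt_iff_lt.1 h1))
      _ ≤ (Finset.range k).card := Finset.card_image_le
      _ = k := Finset.card_range k

/-- The waiting times are almost surely not summable. -/
theorem tsum_top (n : ℕ → ℕ) (hn : StrictMono n) :
    ∀ᵐ y ∂Measure.infinitePi (nu n), ∑' j, y j = ∞ := by
  have h1 : ∀ K : ℕ, ∀ᵐ y ∂Measure.infinitePi (nu n), ∃ k ≥ K, 1 ≤ y (n k) := by
    intro K
    rw [ae_iff]
    have h2 : ∀ m : ℕ, Measure.infinitePi (nu n) {y | ¬ ∃ k ≥ K, 1 ≤ y (n k)} ≤ (1 / 2 : ℝ≥0∞) ^ m := by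
      intro m
      classical
      have h3 : {y : ℕ → ℝ≥0∞ | ¬ ∃ k ≥ K, 1 ≤ y (n k)} ⊆
          Set.pi ((Finset.range m).image (fun i => n (K + i))) (fun _ => Iio (1 : ℝ≥0∞)) := by
        intro y hy
        have hy' : ¬ ∃ k ≥ K, 1 ≤ y (n k) := hy
        push Not at hy'
        rw [Set.mem_pi]
        intro j hj
        rw [Finset.coe_image] at hj
        obtain ⟨i, _, rfl⟩ := hj
        exact hy' (K + i) (by omega)
      refine (measure_mono h3).trans ?_
      rw [Measure.infinitePi_pi _ (fun _ _ => measurableSet_Iio)]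
      rw [Finset.prod_image (fun a _ b _ h => by have := hn.injective h; omega)]
      calc ∏ i ∈ Finset.range m, nu n (n (K + i)) (Iio 1)
          ≤ ∏ i ∈ Finset.range m, (1 / 2 : ℝ≥0∞) := by
            refine Finset.prod_le_prod' fun i _ => ?_
            unfold nu
            rw [if_pos ⟨K + i, rfl⟩]
            simp only [mix, Measure.coe_add, Measure.coe_smul, Pi.add_apply, Pi.smul_apply, smul_eq_mul]
            rw [Measure.dirac_apply' _ measurableSet_Iio]
            simp only [Set.indicator, mem_Iio, lt_irrefl, if_false, mul_zero, add_zero]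
            calc (1 / 2 : ℝ≥0∞) * beta (n (K + i)) (Iio 1) ≤ (1 / 2 : ℝ≥0∞) * 1 := by
                  gcongr; exact prob_le_one
              _ = 1 / 2 := mul_one _
        _ = (1 / 2 : ℝ≥0∞) ^ m := by simp
    have h4 : Filter.Tendsto (fun m : ℕ => (1 / 2 : ℝ≥0∞) ^ m) Filter.atTop (nhds 0) :=
      ENNReal.tendsto_pow_atTop_nhds_zero_of_lt_one (by
        rw [one_div]; exact ENNReal.inv_lt_one.2 (by norm_num))
    exact le_antisymm (ge_of_tendsto' h4 h2) zero_le
  filter_upwards [ae_all_iff.2 h1] with y hy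
  by_contra hcon
  have h5 := ENNReal.finite_const_le_of_tsum_ne_top hcon (one_ne_zero)
  have h6 : (n '' {k | 1 ≤ y (n k)}).Infinite := by
    refine Set.Infinite.image hn.injective.injOn ?_
    rw [Nat.frequently_atTop_iff_infinite.symm]
    rw [Filter.frequently_atTop]
    intro a
    obtain ⟨k, hk1, hk2⟩ := hy a
    exact ⟨k, hk1, hk2⟩
  refine h6 (h5.subset ?_)
  rintro j ⟨k, hk, rfl⟩
  exact hk

end Q287.CMJ
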