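import Pool.Agent.Q287.CMJ.Det

/-!
Crump–Mode–Jagers trees: the probabilistic part of the construction.
-/

open Set MeasureTheory ProbabilityTheory
open scoped ENNReal

namespace Q287.CMJ

/-- The law of the whole family `(X u)_u` of i.i.d. copies of a random sequence with law `μ`. -/
noncomputable def law (μ : Measure (ℕ → ℝ≥0∞)) : Measure (List ℕ → ℕ → ℝ≥0∞) :=
  Measure.infinitePi (fun _ : List ℕ => μ)

instance (μ : Measure (ℕ → ℝ≥0∞)) [IsProbabilityMeasure μ] : IsProbabilityMeasure (law μ) := by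
  unfold law; infer_instance

theorem law_forall_finset (μ : Measure (ℕ → ℝ≥0∞)) [IsProbabilityMeasure μ]
    {A : Set (ℕ → ℝ≥0∞)} (hA : MeasurableSet A) (s : Finset (List ℕ)) :
    law μ {X | ∀ u ∈ s, X u ∈ A} = μ A ^ s.card := by
  have h : {X : List ℕ → ℕ → ℝ≥0∞ | ∀ u ∈ s, X u ∈ A} = Set.pi s (fun _ => A) := by
    ext X; simp [Set.mem_pi]
  rw [h, law, Measure.infinitePi_pi _ (fun _ _ => hA), Finset.prod_const]

theorem law_ae (μ : Measure (ℕ → ℝ≥0∞)) [IsProbabilityMeasure μ] {p : (ℕ → ℝ≥0∞) → Prop}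
    (h : ∀ᵐ y ∂μ, p y) : ∀ᵐ X ∂law μ, ∀ u, p (X u) := by
  rw [ae_all_iff]
  intro u
  exact (measurePreserving_eval_infinitePi (fun _ : List ℕ => μ) u).quasiMeasurePreserving.ae h

/-- The recursive choice of the sequence of indices. -/
theorem exists_seq (q : ℕ → ℝ≥0∞) (hq : ∀ k, 0 < q k) :
    ∃ n : ℕ → ℕ, StrictMono n ∧ (∀ k, 0 < n k) ∧
      ∀ k, ((∏ j ∈ Finset.range k, n j : ℕ) : ℝ≥0∞) * (1 - q k) ^ (n k) ≤ (1 / 2) ^ k := by
  have hstep : ∀ (P m k : ℕ), ∃ n, m < n ∧ (P : ℝ≥0∞) * (1 - q k) ^ n ≤ (1 / 2) ^ k := by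
    intro P m k
    have h1 : 1 - q k < 1 := ENNReal.sub_lt_self (by simp) (by simp) (hq k).ne'
    have h2 : Filter.Tendsto (fun n : ℕ => (P : ℝ≥0∞) * (1 - q k) ^ n) Filter.atTop (nhds (P * 0)) :=
      ENNReal.Tendsto.const_mul (ENNReal.tendsto_pow_atTop_nhds_zero_of_lt_one h1)
        (Or.inr (by simp))
    rw [mul_zero] at h2
    have h3 : ∀ᶠ n : ℕ in Filter.atTop, (P : ℝ≥0∞) * (1 - q k) ^ n < (1 / 2) ^ k := by
      refine h2.eventually (gt_mem_nhds ?_)
      exact ENNReal.pow_pos (by simp) _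
    obtain ⟨n, hn1, hn2⟩ := (h3.and (Filter.eventually_gt_atTop m)).exists
    exact ⟨n, hn2, hn1.le⟩
  choose f hf1 hf2 using hstep
  let s : ℕ → ℕ × ℕ := fun k => Nat.rec (1, f 1 0 0) (fun k p => (p.1 * p.2, f (p.1 * p.2) p.2 (k + 1))) k
  have hs0 : s 0 = (1, f 1 0 0) := rfl
  have hss : ∀ k, s (k + 1) = ((s k).1 * (s k).2, f ((s k).1 * (s k).2) (s k).2 (k + 1)) := fun k => rfl
  have hP : ∀ k, (s k).1 = ∏ j ∈ Finset.range k, (s j).2 := by
    intro k
    induction k with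
    | zero => rw [hs0]; simp
    | succ k ih => rw [hss, Finset.prod_range_succ, ← ih]
  have hn : ∀ k, (s k).2 = f (s k).1 (Nat.casesOn k 0 (fun k => (s k).2)) k := by
    intro k
    cases k with
    | zero => rfl
    | succ k => rw [hss]
  refine ⟨fun k => (s k).2, strictMono_nat_of_lt_succ ?_, ?_, ?_⟩
  · intro k
    show (s k).2 < (s (k + 1)).2
    rw [hss]
    exact hf1 _ _ _
  · intro k
    show 0 < (s k).2
    rw [hn k]
    exact (Nat.zero_le _).trans_lt (hf1 _ _ _)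
  · intro k
    show ((∏ j ∈ Finset.range k, (s j).2 : ℕ) : ℝ≥0∞) * (1 - q k) ^ ((s k).2) ≤ (1 / 2) ^ k
    rw [← hP k, hn k]
    exact hf2 _ _ _

/-- The words of length `k` whose letter at depth `j` is smaller than `n j`. -/
def words (n : ℕ → ℕ) : ℕ → Finset (List ℕ)
  | 0 => {[]}
  | k + 1 => ((words n k) ×ˢ (Finset.range (n k))).image (fun p => p.2 :: p.1)

theorem words_succ_mem (n : ℕ → ℕ) (k : ℕ) (v : List ℕ) (i : ℕ) (hv : v ∈ words n k)
    (hi : i < n k) : i :: v ∈ words n (k + 1) := by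
  simp only [words, Finset.mem_image, Finset.mem_product, Finset.mem_range]
  exact ⟨(v, i), ⟨hv, hi⟩, rfl⟩

theorem words_card (n : ℕ → ℕ) (k : ℕ) : (words n k).card ≤ ∏ j ∈ Finset.range k, n j := by
  induction k with
  | zero => simp [words]
  | succ k ih =>
    rw [Finset.prod_range_succ, words]
    refine Finset.card_image_le.trans ?_
    rw [Finset.card_product, Finset.card_range]
    exact Nat.mul_le_mul_right _ ih

/-- The good event: small waiting times for the first `m` children. -/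
def goodSet (k m : ℕ) : Set (ℕ → ℝ≥0∞) :=
  {y | ∀ j < m, y j ≤ (1 / 2 : ℝ≥0∞) ^ (k + j)}

theorem goodSet_eq (k m : ℕ) :
    goodSet k m = Set.pi (Finset.range m) (fun j => Iic ((1 / 2 : ℝ≥0∞) ^ (k + j))) := by
  ext y; simp [goodSet, Set.mem_pi]

theorem goodSet_measurable (k m : ℕ) : MeasurableSet (goodSet k m) := by
  rw [goodSet_eq]
  exact MeasurableSet.pi (Finset.countable_toSet _) fun _ _ => measurableSet_Iic

/-- Probability bound for the bad event at level `k`. -/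
theorem bad_le (μ : Measure (ℕ → ℝ≥0∞)) [IsProbabilityMeasure μ] (n : ℕ → ℕ) (q : ℝ≥0∞) (k : ℕ)
    (hq : q ≤ μ (goodSet (k + 1) (n (k + 1)))) :
    law μ {X | ∃ v ∈ words n k, ∀ i < n k, X (i :: v) ∉ goodSet (k + 1) (n (k + 1))}
      ≤ ((∏ j ∈ Finset.range k, n j : ℕ) : ℝ≥0∞) * (1 - q) ^ (n k) := by
  classical
  have h1 : {X : List ℕ → ℕ → ℝ≥0∞ | ∃ v ∈ words n k, ∀ i < n k, X (i :: v) ∉ goodSet (k + 1) (n (k + 1))}
      = ⋃ v ∈ words n k, {X | ∀ i < n k, X (i :: v) ∉ goodSet (k + 1) (n (k + 1))} := by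
    ext X; simp
  rw [h1]
  refine (measure_biUnion_finset_le _ _).trans ?_
  have h2 : ∀ v ∈ words n k, law μ {X | ∀ i < n k, X (i :: v) ∉ goodSet (k + 1) (n (k + 1))}
      ≤ (1 - q) ^ (n k) := by
    intro v _
    have h3 : {X : List ℕ → ℕ → ℝ≥0∞ | ∀ i < n k, X (i :: v) ∉ goodSet (k + 1) (n (k + 1))}
        = {X | ∀ u ∈ (Finset.range (n k)).image (fun i => i :: v), X u ∈ (goodSet (k + 1) (n (k + 1)))ᶜ} := by
      ext X; simp
    rw [h3, law_forall_finset μ (goodSet_measurable _ _).compl, Finset.card_image_of_injective _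
      (fun a b h => by simpa using h), Finset.card_range]
    gcongr
    rw [prob_compl_eq_one_sub (goodSet_measurable _ _)]
    gcongr
  refine (Finset.sum_le_sum h2).trans ?_
  rw [Finset.sum_const, nsmul_eq_mul]
  gcongr
  exact words_card n k

/-- Almost sure explosion. -/
theorem ae_explosion (μ : Measure (ℕ → ℝ≥0∞)) [IsProbabilityMeasure μ] (n : ℕ → ℕ)
    (hn : ∀ k, 0 < n k) (q : ℕ → ℝ≥0∞)
    (hq : ∀ k, q k ≤ μ (goodSet (k + 1) (n (k + 1))))
    (hqn : ∀ k, ((∏ j ∈ Finset.range k, n j : ℕ) : ℝ≥0∞) * (1 - q k) ^ (n k) ≤ (1 / 2) ^ k)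
    (hfin : ∀ᵐ y ∂μ, ∀ j, y j < ∞) :
    ∀ᵐ X ∂law μ, explosionTime X < ∞ := by
  have hsum : ∑' k, law μ {X | ∃ v ∈ words n k, ∀ i < n k, X (i :: v) ∉ goodSet (k + 1) (n (k + 1))} ≠ ∞ := by
    have h1 : ∑' k : ℕ, (1 / 2 : ℝ≥0∞) ^ k ≠ ∞ := by
      rw [ENNReal.tsum_geometric, one_div, ENNReal.one_sub_inv_two, inv_inv]
      norm_num
    refine ne_top_of_le_ne_top h1 (ENNReal.tsum_le_tsum fun k => ?_)
    exact (bad_le μ n (q k) k (hq k)).trans (hqn k)
  have h2 := ae_eventually_notMem hsum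
  filter_upwards [h2, law_ae μ hfin] with X hX hXf
  obtain ⟨K, hK⟩ := Filter.eventually_atTop.1 hX
  refine explosion_of_path X n hn hXf (fun k => (words n k : Set (List ℕ))) (by simp [words])
    (fun k v i hv hi => by
      have := words_succ_mem n k v i (by simpa using hv) hi
      simpa using this) K ?_
  intro k hk v hv
  have h3 : ¬ (∃ v ∈ words n k, ∀ i < n k, X (i :: v) ∉ goodSet (k + 1) (n (k + 1))) := hK k hk
  push Not at h3
  obtain ⟨i, hi, hg⟩ := h3 v (by simpa using hv)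
  exact ⟨i, hi, hg⟩

/-- Uniform law on `(0, 1]`, scaled by `4⁻ʲ`. -/
noncomputable def beta (j : ℕ) : Measure ℝ≥0∞ :=
  (volume.restrict (Ioc (0 : ℝ) 1)).map (fun x : ℝ => ENNReal.ofReal (x * (1 / 4) ^ j))

theorem beta_meas (j : ℕ) : Measurable (fun x : ℝ => ENNReal.ofReal (x * (1 / 4) ^ j)) := by
  fun_prop

instance : IsProbabilityMeasure (volume.restrict (Ioc (0 : ℝ) 1)) := ⟨by simp⟩

instance (j : ℕ) : IsProbabilityMeasure (beta j) := by
  unfold beta
  exact Measure.isProbabilityMeasure_map (beta_meas j).aemeasurable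

theorem beta_ae (j : ℕ) : ∀ᵐ x ∂beta j, 0 < x ∧ x ≤ 1 := by
  unfold beta
  rw [ae_map_iff (beta_meas j).aemeasurable]
  · rw [ae_restrict_iff' measurableSet_Ioc]
    refine Filter.Eventually.of_forall fun x hx => ?_
    have h4 : (0 : ℝ) < (1 / 4) ^ j := by positivity
    have h5 : ((1 : ℝ) / 4) ^ j ≤ 1 := pow_le_one₀ (by norm_num) (by norm_num)
    constructor
    · exact ENNReal.ofReal_pos.2 (mul_pos hx.1 h4)
    · rw [← ENNReal.ofReal_one]
      apply ENNReal.ofReal_le_ofReal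
      calc x * (1 / 4) ^ j ≤ 1 * 1 := by
            apply mul_le_mul hx.2 h5 h4.le (by norm_num)
        _ = 1 := by norm_num
  · exact (measurableSet_lt measurable_const measurable_id).inter
      (measurableSet_le measurable_id measurable_const)

theorem beta_Iic (j k : ℕ) : (1 / 2 : ℝ≥0∞) ^ k ≤ beta j (Iic ((1 / 2 : ℝ≥0∞) ^ (k + j))) := by
  unfold beta
  rw [Measure.map_apply (beta_meas j) measurableSet_Iic]
  have h1 : Ioc (0 : ℝ) ((1 / 2) ^ k) ⊆
      ((fun x : ℝ => ENNReal.ofReal (x * (1 / 4) ^ j)) ⁻¹' Iic ((1 / 2 : ℝ≥0∞) ^ (k + j))) ∩ Ioc 0 1 := by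
    intro x hx
    have hk1 : ((1 : ℝ) / 2) ^ k ≤ 1 := pow_le_one₀ (by norm_num) (by norm_num)
    refine ⟨?_, hx.1, hx.2.trans hk1⟩
    simp only [mem_preimage, mem_Iic]
    have h2 : (1 / 2 : ℝ≥0∞) = ENNReal.ofReal (1 / 2) := by
      rw [ENNReal.ofReal_div_of_pos (by norm_num)]; simp
    rw [h2, ← ENNReal.ofReal_pow (by norm_num)]
    apply ENNReal.ofReal_le_ofReal
    rw [pow_add]
    have h3 : ((1 : ℝ) / 4) ^ j ≤ (1 / 2) ^ j := pow_le_pow_left₀ (by norm_num) (by norm_num) j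
    exact mul_le_mul hx.2 h3 (by positivity) (by positivity)
  have h2 : volume (Ioc (0 : ℝ) ((1 / 2) ^ k)) = (1 / 2 : ℝ≥0∞) ^ k := by
    rw [Real.volume_Ioc, sub_zero, ENNReal.ofReal_pow (by norm_num)]
    congr 1
    rw [ENNReal.ofReal_div_of_pos (by norm_num)]; simp
  rw [← h2, Measure.restrict_apply ((beta_meas j) measurableSet_Iic)]
  exact measure_mono h1

theorem beta_Iic' (j k : ℕ) (h : k ≤ j) : 1 ≤ beta j (Iic ((1 / 2 : ℝ≥0∞) ^ (k + j))) := by
  unfold beta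
  rw [Measure.map_apply (beta_meas j) measurableSet_Iic]
  have h1 : Ioc (0 : ℝ) 1 ⊆
      ((fun x : ℝ => ENNReal.ofReal (x * (1 / 4) ^ j)) ⁻¹' Iic ((1 / 2 : ℝ≥0∞) ^ (k + j))) ∩ Ioc 0 1 := by
    intro x hx
    refine ⟨?_, hx⟩
    simp only [mem_preimage, mem_Iic]
    have h2 : (1 / 2 : ℝ≥0∞) = ENNReal.ofReal (1 / 2) := by
      rw [ENNReal.ofReal_div_of_pos (by norm_num)]; simp
    rw [h2, ← ENNReal.ofReal_pow (by norm_num)]
    apply ENNReal.ofReal_le_ofReal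
    calc x * (1 / 4) ^ j ≤ 1 * (1 / 4) ^ j := by gcongr; exact hx.2
      _ = (1 / 2) ^ (j + j) := by rw [one_mul, ← mul_pow_sub_one_aux j]
      _ ≤ (1 / 2) ^ (k + j) := pow_le_pow_of_le_one (by norm_num) (by norm_num) (by omega)
  have h2 : volume (Ioc (0 : ℝ) 1) = 1 := by simp
  rw [Measure.restrict_apply ((beta_meas j) measurableSet_Iic)]
  exact h2.symm.le.trans (measure_mono h1)
where
  mul_pow_sub_one_aux (j : ℕ) : ((1 : ℝ) / 2) ^ (j + j) = (1 / 4) ^ j := by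
    rw [← two_mul, pow_mul]; norm_num

end Q287.CMJ
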